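import Pool.Agent.R299.NCH.Defs

/-!
# Families of noncommutative varieties `D(A) ⊠ 𝒟`: definitions

Let `Y → B` be a smooth proper family of varieties over a simply connected base (the universal covering
of the base of the problem). Its rational topological K-theory is trivialized, `ℚ ^ v`, and `Y b : Coh v`
is the Hodge structure of the fibre at `b`. A `B`-linear admissible subcategory `𝒟` of `D^perf(Y)` is
given by the projector `P` of the local system `ℚ ^ v` defined by the projection functor onto `𝒟`; it
commutes with the Hodge operators of all fibres, and the image of `P` is the local system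
`K^top(𝒟 / B) ⊗ ℚ`, with the Hodge structures of the fibres `𝒟_b`.
-/

set_option autoImplicit false

namespace Pool.Agent.R299.NCV

open Matrix Module Pool.Agent.H204R3.CM Pool.Agent.TH131.GHC Pool.Agent.TH504.VY
  Pool.Agent.R299.NCH

variable {B W T : Type} [AddCommGroup W] [Module ℚ W] [AddCommGroup T] [Module ℂ T]

/-- The span of the products `f ⊗ x` of flat classes such that `f` is a combination of products of
divisor classes on all fibres `A_b` and `x` is a Hodge class of all fibres `𝒟_b`. -/
def boxClasses (per : B → W →+ T) {v : ℕ} (Y : B → Coh v) (P : Matrix (Fin v) (Fin v) ℚ) :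
    Submodule ℚ (HAZ W v) :=
  Submodule.span ℚ {G | ∃ (k : ℕ) (f : W [⋀^Fin k]→ₗ[ℚ] ℚ) (x : Fin v → ℚ),
    (∀ b, f ∈ divisorSpan (per b) k) ∧ (∀ b, IsHodgeD (Y b) P x) ∧ G = cross f x}

/-- Each flat class which is a Hodge class of all `D(A_b) ⊠ 𝒟_b` is a sum of products of classes as in
`boxClasses`. -/
def HodgeClassesAreBoxes (per : B → W →+ T) {v : ℕ} (Y : B → Coh v)
    (P : Matrix (Fin v) (Fin v) ℚ) : Prop :=
  ∀ F, (∀ b, IsHodgeAD (per b) (Y b) P F) → F ∈ boxClasses per Y P

/-- The noncommutative variational Hodge conjecture for `𝒟` implies the one for `D(A) ⊠ 𝒟`. Here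
`algD b` and `alg b` are the images of `K_0(𝒟_b) ⊗ ℚ` and of `K_0(D(A_b) ⊠ 𝒟_b) ⊗ ℚ`; used are
`CrossClosed` (the product of a product of divisor classes on `A_b` and the class of an object of
`𝒟_b` is in the span of the classes of objects of `D(A_b) ⊠ 𝒟_b`) and `IntegralClosed` (for the functors
`E ↦ pr_* (E ⊗ pr^* β)` from `D(A_b) ⊠ 𝒟_b` to `𝒟_b`, by the theorem of Grothendieck, Riemann and
Roch). -/
def NCVariationalFrom (per : B → W →+ T) {v : ℕ} (Y : B → Coh v)
    (P : Matrix (Fin v) (Fin v) ℚ) : Prop :=
  ∀ (alg : B → Submodule ℚ (HAZ W v)) (algD : B → Submodule ℚ (Fin v → ℚ)),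
    CrossClosed per alg algD → IntegralClosed per alg algD →
      Variational (fun b => IsHodgeD (Y b) P) algD →
        Variational (fun b => IsHodgeAD (per b) (Y b) P) alg

/-- Through each point `b` of `B` there is a connected complex manifold (an open set `U` of a space
`ℂ ^ d`, mapped to `B`) along which the Hodge structure of the fibres of `𝒟` is constant and all the
families `Z i` are moving. -/
def MovesRelativeTo {ι : Type} {g : ι → ℕ} {v : ℕ}
    (Z : ∀ i, B → Matrix (Fin (g i)) (Fin (g i)) ℂ) (Y : B → Coh v)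
    (P : Matrix (Fin v) (Fin v) ℚ) : Prop :=
  ∀ b, ∃ (d : ℕ) (U : Set (Fin d → ℂ)) (φ : (Fin d → ℂ) → B), IsOpen U ∧ IsPreconnected U ∧
    b ∈ φ '' U ∧ (∀ t ∈ U, (Y (φ t)).z * cm P = (Y b).z * cm P) ∧
      ∀ i, IsMovingFamily U (fun t => Z i (φ t))

end Pool.Agent.R299.NCV
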