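import Pool.Agent.R299.NCV.Defs
import Pool.Agent.R299.NCH.Restrict
import Pool.Agent.TH504.VY.Main

/-!
# The noncommutative variational Hodge conjecture for `D(A) ⊠ 𝒟`
-/

set_option autoImplicit false
set_option linter.unusedSectionVars false
set_option linter.unusedVariables false

namespace Pool.Agent.R299.NCV

open Matrix Module Pool.Agent.H204R3.CM Pool.Agent.TH131.GHC Pool.Agent.TH504.VY
  Pool.Agent.R299.NCH

variable {ι B : Type} {g : ι → ℕ} {v : ℕ} {Z : ∀ i, B → Matrix (Fin (g i)) (Fin (g i)) ℂ}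
  {Y : B → Coh v} {P : Matrix (Fin v) (Fin v) ℚ}

noncomputable section

/-- The Hodge structures of the fibres of `𝒟`. -/
def fam (Y : B → Coh v) (hP : ∀ b, IsProjector (Y b) P) (S : Split P) (b : B) : Coh S.r :=
  restrict (Y b) (hP b) S

theorem movesRelative (hP : ∀ b, IsProjector (Y b) P) (S : Split P)
    (h : MovesRelativeTo Z Y P) : MovesRelative Z (fam Y hP S) := by
  intro b
  obtain ⟨d, U, φ, h1, h2, h3, h4, h5⟩ := h b
  refine ⟨d, U, φ, h1, h2, h3, fun t ht => ?_, h5⟩
  have hPM : cm P * cm S.M = cm S.M := by rw [← cm_mul, PM]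
  change cm S.N * (Y (φ t)).z * cm S.M = cm S.N * (Y b).z * cm S.M
  rw [← hPM, Matrix.mul_assoc, Matrix.mul_assoc, ← Matrix.mul_assoc _ (cm P), h4 t ht,
    ← Matrix.mul_assoc _ (cm P)]

theorem isHodgeD_of (hP : ∀ b, IsProjector (Y b) P) (S : Split P) {b : B} {x : Fin S.r → ℚ}
    (hx : IsHodgeOn (fam Y hP S b) x) : IsHodgeD (Y b) P (S.M *ᵥ x) := by
  refine ⟨?_, ?_⟩
  · rw [Matrix.mulVec_mulVec, PM]
  · change (Y b).z *ᵥ cv (S.M *ᵥ x) = 0
    have hx' : (restrict (Y b) (hP b) S).z *ᵥ cv x = 0 := hx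
    rw [← cm_mulVec, Matrix.mulVec_mulVec, ← Mz (hP b) S, ← Matrix.mulVec_mulVec, hx',
      Matrix.mulVec_zero]

theorem app_app {W : Type} [AddCommGroup W] [Module ℚ W] (S : Split P) {F : HAZ W v}
    (hF : ∀ (k : ℕ) (w : Fin k → W), P *ᵥ F k w = F k w) : app S.M (app S.N F) = F := by
  funext k
  ext w : 1
  change S.M *ᵥ (S.N *ᵥ F k w) = F k w
  rw [Matrix.mulVec_mulVec, S.MN, hF k w]

theorem main [Nonempty B] {n : ℕ} (c : Fin n → ι) (hP : ∀ b, IsProjector (Y b) P)
    (h : MovesRelativeTo Z Y P) :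
    HodgeClassesAreBoxes (fibreProduct Z c) Y P ∧ NCVariationalFrom (fibreProduct Z c) Y P := by
  classical
  obtain ⟨b₁⟩ := (inferInstance : Nonempty B)
  obtain ⟨S⟩ := exists_split (hP b₁).idem
  obtain ⟨h1, h2⟩ := Pool.Agent.TH504.VY.main Z c (fam Y hP S) (movesRelative hP S h)
  constructor
  · intro F hF
    have h3 := h1 (app S.N F) fun b =>
      hodge_app (fibreProduct Z c b) S.N (Y b) (fam Y hP S b) (zN (hP b) S) (hF b).2
    have h4 := Submodule.mem_map_of_mem (f := appL _ S.M) h3
    have h5 : appL _ S.M (app S.N F) = F := app_app S (hF b₁).1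
    rw [h5, productClasses, Submodule.map_span] at h4
    refine Submodule.span_mono ?_ h4
    rintro _ ⟨G, ⟨k, f, x, hf, hx, rfl⟩, rfl⟩
    exact ⟨k, f, S.M *ᵥ x, hf, fun b => isHodgeD_of hP S (hx b), app_cross S.M f x⟩
  · intro alg algD hc hi hv
    let C : CycleSystem (fibreProduct Z c) S.r :=
      { alg := fun b => (alg b).comap (appL _ S.M)
        algY := fun b => (algD b).comap (Matrix.mulVecLin S.M)
        cross_mem := by
          intro b k f hf x hx
          change app S.M (cross f x) ∈ alg b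
          rw [app_cross]
          exact hc b k f hf _ hx
        integral_mem := by
          intro b F hF k j e β hβ
          change S.M *ᵥ fibreIntegral e F β ∈ algD b
          have h3 : S.M *ᵥ fibreIntegral e F β = fibreIntegral e (app S.M F) β := by
            change Matrix.mulVecLin S.M (fibreIntegral e F β) = _
            rw [fibreIntegral, map_sum, fibreIntegral]
            refine Finset.sum_congr rfl fun σ _ => ?_
            rw [map_zsmul, map_smul]
            rfl
          rw [h3]
          exact hi b _ hF k j e β hβ }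
    have hvC : Variational (fun b => IsHodgeOn (fam Y hP S b)) C.algY := by
      intro x hx b₀ hb₀ b
      exact hv (S.M *ᵥ x) (fun b => isHodgeD_of hP S (hx b)) b₀ hb₀ b
    have h3 := h2 C hvC
    intro F hF b₀ hb₀ b
    have h5 : app S.M (app S.N F) = F := app_app S (hF b₁).1
    have h4 := h3 (app S.N F) (fun b =>
      hodge_app (fibreProduct Z c b) S.N (Y b) (fam Y hP S b) (zN (hP b) S) (hF b).2) b₀ (by
        change app S.M (app S.N F) ∈ alg b₀
        rw [h5]
        exact hb₀) b
    change app S.M (app S.N F) ∈ alg b at h4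
    rw [h5] at h4
    exact h4

end

end Pool.Agent.R299.NCV
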